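import Pool.Agent.H912R3.Eq.Fin2

set_option autoImplicit false

/-!
# Ehrhart's volume inequality in every dimension, for every lattice, with its equality cases

The case of the lattice `ℤ^d` is `Pool.Agent.H912R3.Ehr.ehrhart_int` and `core_eq`.  Here the
general lattice `A ℤ^d` is reduced to it by the change of variables `y = A x`.
-/

open MeasureTheory

namespace Pool.Agent.Results.MP_4c844b_co.EhrhartInequality

/-- the lattice `A ℤ^d` -/
def lat {d : ℕ} (A : Matrix (Fin d) (Fin d) ℝ) : Set (Fin d → ℝ) :=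
  {x | ∃ z : Fin d → ℤ, x = A.mulVec (fun i => (z i : ℝ))}

/-- the centroid `(1 / V(K)) ∫_K x dx` -/
noncomputable def centroid {d : ℕ} (K : Set (Fin d → ℝ)) : Fin d → ℝ :=
  (volume K).toReal⁻¹ • ∫ x in K, x

/-- the simplex `{y : y_i ≥ -1 for all i, and y_1 + ... + y_d ≤ 1}` -/
def simplex (d : ℕ) : Set (Fin d → ℝ) := {y | (∀ i, -1 ≤ y i) ∧ ∑ i, y i ≤ 1}

open Pool.Agent.H912R3.Ehr

lemma simplex_eq (d : ℕ) (y : Fin d → ℝ) :
    y ∈ simplex d ↔ (fun i => y i + 1) ∈ Tx d ((d : ℝ) + 1) := by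
  simp only [simplex, Tx, Set.mem_ofPred_eq, Finset.sum_add_distrib, Finset.sum_const,
    Finset.card_univ, Fintype.card_fin, nsmul_eq_mul, mul_one]
  constructor
  · rintro ⟨h1, h2⟩
    exact ⟨fun i => by linarith [h1 i], by linarith⟩
  · rintro ⟨h1, h2⟩
    exact ⟨fun i => by linarith [h1 i], by linarith⟩

section
variable {d : ℕ} {A : Matrix (Fin d) (Fin d) ℝ}

lemma inv_mul (hA : A.det ≠ 0) (x : Fin d → ℝ) : A⁻¹.mulVec (A.mulVec x) = x := by
  rw [Matrix.mulVec_mulVec, Matrix.nonsing_inv_mul _ (Ne.isUnit hA), Matrix.one_mulVec]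

lemma mul_inv (hA : A.det ≠ 0) (x : Fin d → ℝ) : A.mulVec (A⁻¹.mulVec x) = x := by
  rw [Matrix.mulVec_mulVec, Matrix.mul_nonsing_inv _ (Ne.isUnit hA), Matrix.one_mulVec]

lemma cont_mulVec (M : Matrix (Fin d) (Fin d) ℝ) : Continuous fun x : Fin d → ℝ => M.mulVec x :=
  (LinearMap.continuous_of_finiteDimensional (Matrix.mulVecLin M))

/-- the linear homeomorphism `x ↦ A⁻¹ x` -/
noncomputable def hom (hA : A.det ≠ 0) : (Fin d → ℝ) ≃ₜ (Fin d → ℝ) where
  toFun x := A⁻¹.mulVec x
  invFun x := A.mulVec x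
  left_inv x := mul_inv hA x
  right_inv x := inv_mul hA x
  continuous_toFun := cont_mulVec _
  continuous_invFun := cont_mulVec _

/-- the body `A⁻¹ K` -/
noncomputable def pull (A : Matrix (Fin d) (Fin d) ℝ) (K : Set (Fin d → ℝ)) : Set (Fin d → ℝ) :=
  (fun x => A⁻¹.mulVec x) '' K

lemma mem_pull (hA : A.det ≠ 0) {K : Set (Fin d → ℝ)} {x : Fin d → ℝ} :
    x ∈ pull A K ↔ A.mulVec x ∈ K := by
  constructor
  · rintro ⟨y, hy, rfl⟩
    show A.mulVec (A⁻¹.mulVec y) ∈ K
    rw [mul_inv hA]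
    exact hy
  · intro h
    exact ⟨_, h, inv_mul hA x⟩

lemma interior_pull (hA : A.det ≠ 0) (K : Set (Fin d → ℝ)) :
    interior (pull A K) = pull A (interior K) := by
  have := (hom hA).image_interior K
  exact this.symm

lemma vol_pull (_hA : A.det ≠ 0) (K : Set (Fin d → ℝ)) :
    volume.real (pull A K) = |A.det|⁻¹ * volume.real K := by
  have h1 : pull A K = (Matrix.toLin' A⁻¹) '' K := rfl
  rw [h1, measureReal_def, Measure.addHaar_image_linearMap, LinearMap.det_toLin',
    ENNReal.toReal_mul, ENNReal.toReal_ofReal (abs_nonneg _), Matrix.det_nonsing_inv,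
    Ring.inverse_eq_inv', abs_inv, measureReal_def]

lemma int_pull (hA : A.det ≠ 0) {K : Set (Fin d → ℝ)} (hK : IsCompact K)
    (hz : ∀ i, ∫ x in K, x i = 0) (i : Fin d) : ∫ x in pull A K, x i = 0 := by
  have h1 : pull A K = (LinearMap.toContinuousLinearMap (Matrix.toLin' A⁻¹)) '' K := rfl
  have hinj : Set.InjOn (LinearMap.toContinuousLinearMap (Matrix.toLin' A⁻¹)) K := by
    intro x _ y _ hxy
    have h2 : A⁻¹.mulVec x = A⁻¹.mulVec y := hxy
    rw [← mul_inv hA x, ← mul_inv hA y, h2]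
  rw [h1, integral_image_eq_integral_abs_det_fderiv_smul volume hK.measurableSet
    (fun x _ => (ContinuousLinearMap.hasFDerivAt _).hasFDerivWithinAt) hinj]
  have h3 : ∫ x in K, (LinearMap.toContinuousLinearMap (Matrix.toLin' A⁻¹)) x i = 0 := by
    have h4 : ∀ x : Fin d → ℝ, (LinearMap.toContinuousLinearMap (Matrix.toLin' A⁻¹)) x i =
        ∑ j, A⁻¹ i j * x j := fun x => rfl
    simp only [h4]
    rw [integral_finsetSum]
    · refine Finset.sum_eq_zero fun j _ => ?_
      rw [integral_const_mul, hz j, mul_zero]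
    · intro j _
      exact (ContinuousOn.integrableOn_compact hK (by fun_prop))
  rw [integral_smul, h3, smul_zero]

/-- the image of a lattice point -/
lemma lat_of_pull {K : Set (Fin d → ℝ)} (hA : A.det ≠ 0) (hL : interior K ∩ lat A = {0})
    (z : Fin d → ℤ) (hz : (fun i => (z i : ℝ)) ∈ interior (pull A K)) : z = 0 := by
  rw [interior_pull hA, mem_pull hA] at hz
  have h1 : A.mulVec (fun i => (z i : ℝ)) ∈ interior K ∩ lat A := ⟨hz, z, rfl⟩
  rw [hL, Set.mem_singleton_iff] at h1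
  have h2 := inv_mul hA (fun i => (z i : ℝ))
  rw [h1, Matrix.mulVec_zero] at h2
  funext i
  have h3 := congrFun h2 i
  simp only [Pi.zero_apply] at h3 ⊢
  exact_mod_cast h3.symm

/-- inclusions of lattices are given by integer matrices -/
lemma exists_int {B : Matrix (Fin d) (Fin d) ℝ} (h : lat B ⊆ lat A) :
    ∃ M : Matrix (Fin d) (Fin d) ℤ, B = A * M.map (Int.cast : ℤ → ℝ) := by
  have h1 : ∀ j : Fin d, ∃ z : Fin d → ℤ, (fun i => B i j) = A.mulVec (fun i => (z i : ℝ)) := by
    intro j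
    apply h
    refine ⟨Pi.single j 1, ?_⟩
    funext i
    simp only [Matrix.mulVec, dotProduct]
    rw [Finset.sum_eq_single j]
    · simp
    · intro k _ hk
      simp [Pi.single_eq_of_ne hk]
    · simp
  choose z hz using h1
  refine ⟨Matrix.of fun i j => z j i, ?_⟩
  ext i j
  have := congrFun (hz j) i
  simpa [Matrix.mul_apply, Matrix.mulVec, dotProduct] using this

lemma absdet_eq {B : Matrix (Fin d) (Fin d) ℝ} (hA : A.det ≠ 0) (h : lat B = lat A) :
    |B.det| = |A.det| := by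
  obtain ⟨M, hM⟩ := exists_int h.subset
  obtain ⟨N, hN⟩ := exists_int h.symm.subset
  have h1 : B.det = A.det * (M.det : ℝ) := by
    rw [hM, Matrix.det_mul]
    congr 1
    exact (RingHom.map_det (Int.castRingHom ℝ) M).symm
  have h2 : A.det = B.det * (N.det : ℝ) := by
    conv_lhs => rw [hN]
    rw [Matrix.det_mul]
    congr 1
    exact (RingHom.map_det (Int.castRingHom ℝ) N).symm
  have h3 : M.det * N.det = 1 := by
    have h4 : A.det * ((M.det * N.det : ℤ) : ℝ) = A.det * 1 := by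
      rw [Int.cast_mul, ← mul_assoc, ← h1, ← h2, mul_one]
    exact_mod_cast mul_left_cancel₀ hA h4
  have h5 : |(M.det : ℝ)| = 1 := by
    rcases Int.isUnit_iff.1 (IsUnit.of_mul_eq_one _ h3) with h | h <;> simp [h]
  rw [h1, abs_mul, h5, mul_one]

end

/-- **Ehrhart's inequality.**  Let `L = A ℤ^d` be a lattice of `ℝ^d`, `d ≥ 1`, and let `K` be a
convex body with centroid `0` and `(int K) ∩ L = {0}`.  Then
`V(K) ≤ ((d+1)^d / d!) det L`, with equality exactly when
`K = {B y : y_i ≥ -1, y_1 + ... + y_d ≤ 1}` for some `B` with `B ℤ^d = L`. -/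
theorem result (d : ℕ) (hd : 1 ≤ d) (A : Matrix (Fin d) (Fin d) ℝ) (hA : A.det ≠ 0)
    (K : Set (Fin d → ℝ)) (hK : IsCompact K) (hKc : Convex ℝ K) (hKi : (interior K).Nonempty)
    (hz : centroid K = 0) (hL : interior K ∩ lat A = {0}) :
    (volume K).toReal ≤ ((d : ℝ) + 1) ^ d / (d.factorial : ℝ) * |A.det| ∧
    ((volume K).toReal = ((d : ℝ) + 1) ^ d / (d.factorial : ℝ) * |A.det| ↔
      ∃ B : Matrix (Fin d) (Fin d) ℝ, lat B = lat A ∧ K = (fun y => B.mulVec y) '' simplex d) := by
  have hVpos : 0 < (volume K).toReal := by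
    have h1 : 0 < volume K :=
      (isOpen_interior.measure_pos volume hKi).trans_le (measure_mono interior_subset)
    exact ENNReal.toReal_pos h1.ne' hK.measure_lt_top.ne
  have hz' : ∀ i, ∫ x in K, x i = 0 := by
    have hI : (∫ x in K, x) = 0 := by
      rcases smul_eq_zero.1 hz with h | h
      · exact absurd h (inv_ne_zero hVpos.ne')
      · exact h
    intro i
    rw [← eval_int hK, hI]
    rfl
  have h0 : (0 : Fin d → ℝ) ∈ interior K := by
    have : (0 : Fin d → ℝ) ∈ interior K ∩ lat A := by rw [hL]; rfl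
    exact this.1
  have hdet : 0 < |A.det| := abs_pos.2 hA
  -- the pulled back body
  have c1 : IsCompact (pull A K) := hK.image (cont_mulVec _)
  have c2 : Convex ℝ (pull A K) := hKc.linear_image (Matrix.toLin' A⁻¹)
  have c3 : ∀ i, ∫ x in pull A K, x i = 0 := int_pull hA hK hz'
  have c4 : (0 : Fin d → ℝ) ∈ interior (pull A K) := by
    rw [interior_pull hA, mem_pull hA, Matrix.mulVec_zero]
    exact h0
  have c5 := lat_of_pull hA hL
  have c6 := vol_pull hA K
  have hb := ehrhart_int hd c1 c2 c3 c4 c5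
  rw [c6, inv_mul_le_iff₀ hdet] at hb
  refine ⟨by rw [mul_comm]; exact hb, fun h => ?_, ?_⟩
  · have h1 : volume.real (pull A K) = ((d : ℝ) + 1) ^ d / d.factorial := by
      rw [c6, measureReal_def, h]
      field_simp
    obtain ⟨U, hU, hKU⟩ := core_eq hd c1 c2 c3 c4 c5 h1
    have hUR : (U.map (Int.cast : ℤ → ℝ)).det ≠ 0 := by
      have h2 : (U.map (Int.cast : ℤ → ℝ)).det = (U.det : ℝ) :=
        (RingHom.map_det (Int.castRingHom ℝ) U).symm
      rw [h2]
      exact_mod_cast hU.ne_zero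
    set W : Matrix (Fin d) (Fin d) ℝ := U.map (Int.cast : ℤ → ℝ) with hW
    have hinv : W⁻¹ = U⁻¹.map (Int.cast : ℤ → ℝ) := by
      apply Matrix.inv_eq_left_inv
      have h2 : (U⁻¹ * U) = 1 := Matrix.nonsing_inv_mul _ hU
      have h3 : (U⁻¹ * U).map (Int.cast : ℤ → ℝ) = U⁻¹.map (Int.cast : ℤ → ℝ) * W := by
        rw [hW]
        exact Matrix.map_mul (f := Int.castRingHom ℝ)
      rw [← h3, h2]
      exact Matrix.map_one (Int.castRingHom ℝ) (map_zero _) (map_one _)
    have hcast : ∀ (M : Matrix (Fin d) (Fin d) ℤ) (z : Fin d → ℤ),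
        (M.map (Int.cast : ℤ → ℝ)).mulVec (fun i => (z i : ℝ)) = fun i => ((M.mulVec z i : ℤ) : ℝ) := by
      intro M z
      funext i
      simp [Matrix.mulVec, dotProduct]
    refine ⟨A * W⁻¹, ?_, ?_⟩
    · ext x
      constructor
      · rintro ⟨z, rfl⟩
        refine ⟨U⁻¹.mulVec z, ?_⟩
        rw [← Matrix.mulVec_mulVec, hinv, hcast]
      · rintro ⟨z, rfl⟩
        refine ⟨U.mulVec z, ?_⟩
        rw [← Matrix.mulVec_mulVec, ← hcast, ← hW, inv_mul hUR]
    · ext x
      have hx : x ∈ K ↔ A⁻¹.mulVec x ∈ pull A K := by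
        rw [mem_pull hA, mul_inv hA]
      rw [hx, hKU]
      have h4 : ∀ y : Fin d → ℝ, y ∈ {x : Fin d → ℝ | (fun i => ∑ j, (U i j : ℝ) * x j + 1) ∈
          Tx d ((d : ℝ) + 1)} ↔ W.mulVec y ∈ simplex d := by
        intro y
        rw [simplex_eq]
        rfl
      rw [h4]
      constructor
      · intro h5
        refine ⟨_, h5, ?_⟩
        show (A * W⁻¹).mulVec (W.mulVec (A⁻¹.mulVec x)) = x
        rw [← Matrix.mulVec_mulVec, inv_mul hUR, mul_inv hA]
      · rintro ⟨y, hy, rfl⟩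
        show W.mulVec (A⁻¹.mulVec ((A * W⁻¹).mulVec y)) ∈ simplex d
        rw [← Matrix.mulVec_mulVec, inv_mul hA, mul_inv hUR]
        exact hy
  · rintro ⟨B, hB, hKB⟩
    have hdB := absdet_eq hA hB
    have hB0 : B.det ≠ 0 := by
      intro h
      rw [h, abs_zero] at hdB
      exact hdet.ne hdB
    have hLB : interior K ∩ lat B = {0} := by rw [hB]; exact hL
    have e1 : pull B K = simplex d := by
      ext x
      rw [mem_pull hB0, hKB]
      constructor
      · rintro ⟨y, hy, hyx⟩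
        have : y = x := by
          rw [← inv_mul hB0 y, ← inv_mul hB0 x]
          exact congrArg _ hyx
        rw [← this]
        exact hy
      · intro hx
        exact ⟨x, hx, rfl⟩
    have e2 : IsCompact (pull B K) := hK.image (cont_mulVec _)
    have e3 := lat_of_pull hB0 hLB
    have e4 : (fun x : Fin d → ℝ => fun i => ∑ j, (((1 : Matrix (Fin d) (Fin d) ℤ) i j : ℤ) : ℝ) * x j +
        (((fun _ => 1 : Fin d → ℤ) i : ℤ) : ℝ)) '' pull B K = Tx d ((d : ℝ) + 1) := by
      rw [e1]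
      have h6 : ∀ x : Fin d → ℝ, (fun i => ∑ j, (((1 : Matrix (Fin d) (Fin d) ℤ) i j : ℤ) : ℝ) * x j +
        (((fun _ => 1 : Fin d → ℤ) i : ℤ) : ℝ)) = fun i => x i + 1 := by
        intro x
        funext i
        rw [Finset.sum_eq_single i]
        · simp
        · intro j _ hj
          rw [Matrix.one_apply_ne hj.symm]
          simp
        · simp
      ext y
      constructor
      · rintro ⟨x, hx, rfl⟩
        show (fun i => ∑ j, (((1 : Matrix (Fin d) (Fin d) ℤ) i j : ℤ) : ℝ) * x j +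
          (((fun _ => 1 : Fin d → ℤ) i : ℤ) : ℝ)) ∈ _
        rw [h6]
        exact (simplex_eq d x).1 hx
      · intro hy
        refine ⟨fun i => y i - 1, ?_, ?_⟩
        · rw [simplex_eq]
          simpa using hy
        · show (fun i => ∑ j, (((1 : Matrix (Fin d) (Fin d) ℤ) i j : ℤ) : ℝ) * (y j - 1) +
            (((fun _ => 1 : Fin d → ℤ) i : ℤ) : ℝ)) = y
          rw [h6 (fun i => y i - 1)]
          funext i
          ring
    have e5 := (converse e2 e3 (by simp) e4).2
    rw [vol_pull hB0, hdB] at e5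
    rw [← e5, measureReal_def]
    field_simp

end Pool.Agent.Results.MP_4c844b_co.EhrhartInequality
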